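import Mathlib

/-!
# The companion Lucas sequence
-/

set_option autoImplicit false

namespace Pool.Agent.helper349_fc

/-- the companion Lucas sequence of `(P, Q)`: `V_0 = 2`, `V_1 = P`, `V_{n+2} = P V_{n+1} - Q V_n` -/
def V (P Q : ℤ) : ℕ → ℤ
  | 0 => 2
  | 1 => P
  | (n + 2) => P * V P Q (n + 1) - Q * V P Q n

end Pool.Agent.helper349_fc
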