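import Mathlib
import Pool.Agent.helper616_fc.Near

/-!
# Bases near terms of a Lucas sequence: the elementary part

The treatment follows `Pool.Agent.helper616_fc` (bases near powers of an integer), with a real number
`R` (the larger root of `X ^ 2 - P X + Q`, `Q = 1` or `Q = -1`) in place of the integer and with the
additional terms `σ ^ a`, `σ = Q / R`.
-/

set_option autoImplicit false

namespace Pool.Agent.helper349_fc

open Pool.Agent.helper616_fc (pow_one_add sq_small)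

/-- the contradiction of the sizes: `R ^ B` is not close to `m R ^ t` with `3 / 2 ≤ m ≤ R / 40` -/
theorem size_contra (R : ℝ) (B t : ℕ) (m α β : ℝ) (hR : 200 ≤ R) (hm : 3 / 2 ≤ |m|)
    (hm2 : |m| ≤ R / 40) (hα : |α| ≤ 3 / 100) (hβ : |β| ≤ 3 / 100)
    (h : R ^ B * (1 + α) = m * R ^ t * (1 + β)) : False := by
  obtain ⟨a1, a2⟩ := abs_le.mp hα
  obtain ⟨b1, b2⟩ := abs_le.mp hβ
  have hn0 : (0 : ℝ) < R := by linarith
  have hB : 0 < R ^ B := pow_pos hn0 _
  have ht : 0 < R ^ t := pow_pos hn0 _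
  have hm0 : 0 < m := by
    by_contra hc
    push Not at hc
    have h1 : 0 < R ^ B * (1 + α) := mul_pos hB (by linarith)
    have h2 : m * R ^ t * (1 + β) ≤ 0 := by
      apply mul_nonpos_of_nonpos_of_nonneg _ (by linarith)
      exact mul_nonpos_of_nonpos_of_nonneg hc ht.le
    linarith
  rw [abs_of_pos hm0] at hm hm2
  rcases Nat.lt_or_ge t B with hlt | hge
  · have h1 : R * R ^ t ≤ R ^ B := by
      rw [← pow_succ']
      exact pow_le_pow_right₀ (by linarith) hlt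
    have h2 : R ^ B * (1 + α) ≥ R * R ^ t * (97 / 100) := by
      apply mul_le_mul h1 (by linarith) (by norm_num) hB.le
    have h3 : m * R ^ t * (1 + β) ≤ (R / 40) * R ^ t * (103 / 100) := by
      apply mul_le_mul _ (by linarith) (by linarith) (by positivity)
      exact mul_le_mul_of_nonneg_right hm2 ht.le
    nlinarith [mul_pos hn0 ht]
  · have h1 : R ^ B ≤ R ^ t := pow_le_pow_right₀ (by linarith) hge
    have h2 : R ^ B * (1 + α) ≤ R ^ t * (103 / 100) := by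
      apply mul_le_mul h1 (by linarith) (by linarith) ht.le
    have h3 : m * R ^ t * (1 + β) ≥ 3 / 2 * R ^ t * (97 / 100) := by
      apply mul_le_mul _ (by linarith) (by norm_num) (by positivity)
      exact mul_le_mul_of_nonneg_right hm ht.le
    nlinarith

/-- `(R ^ a + i) ^ p` -/
theorem pow_form (R : ℝ) (a p : ℕ) (i : ℝ) (hR : 200 ≤ R) (ha : 1 ≤ a) (hp : 1 ≤ p)
    (hi : (p : ℝ) * |i| ≤ R / 100) :
    |(p : ℝ) * (i / R ^ a)| ≤ 1 / 100 ∧ |i / R ^ a| ≤ 1 / 100 ∧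
    (R ^ a + i) ^ p = R ^ (a * p) * (1 + i / R ^ a) ^ p := by
  have hn0 : (0 : ℝ) < R := by linarith
  have hna : 0 < R ^ a := pow_pos hn0 _
  have h1 : R ≤ R ^ a := le_self_pow₀ (by linarith) (by omega)
  have hp' : (1 : ℝ) ≤ p := by exact_mod_cast hp
  have h2 : |(p : ℝ) * (i / R ^ a)| ≤ 1 / 100 := by
    rw [abs_mul, abs_div, abs_of_pos hna, Nat.abs_cast, ← mul_div_assoc, div_le_iff₀ hna]
    linarith
  have h3 : |i / R ^ a| ≤ 1 / 100 := by
    refine le_trans ?_ h2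
    rw [abs_mul, Nat.abs_cast]
    nlinarith [abs_nonneg (i / R ^ a)]
  refine ⟨h2, h3, ?_⟩
  rw [pow_mul, ← mul_pow]
  congr 1
  field_simp

/-- one term `w` dominates -/
theorem dom (R w η μ Y T : ℝ) (B D s : ℕ) (hR : 200 ≤ R) (hs : s ≤ D) (hw : w * R ^ s = μ)
    (hμ : 3 / 2 ≤ |μ|) (hμ2 : |μ| ≤ R / 40) (hη : |η| ≤ 3 / 100 * |w|)
    (hY : Y = R ^ D * (w + η)) (hT : |T| ≤ 3 / 100) (hYB : |Y| = R ^ B * (1 + T)) : False := by
  have hn0 : (0 : ℝ) < R := by linarith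
  have hw0 : w ≠ 0 := by
    intro h
    rw [h, zero_mul] at hw
    rw [← hw, abs_zero] at hμ
    linarith
  have hwp : 0 < |w| := abs_pos.mpr hw0
  have hβ : |η / w| ≤ 3 / 100 := by
    rw [abs_div, div_le_iff₀ hwp]; exact hη
  have h1 : Y = μ * R ^ (D - s) * (1 + η / w) := by
    rw [hY, ← hw]
    have h6 : R ^ D = R ^ (D - s) * R ^ s := by
      rw [← pow_add]; congr 1; omega
    rw [h6]
    field_simp
  have h7 : 0 < 1 + η / w := by linarith [(abs_le.mp hβ).1]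
  have h8 : |Y| = |μ| * R ^ (D - s) * (1 + η / w) := by
    rw [h1, abs_mul, abs_mul, abs_of_pos h7, abs_of_pos (pow_pos hn0 (D - s))]
  refine size_contra R B (D - s) |μ| T (η / w) hR ?_ ?_ hT hβ (by rw [← hYB, h8])
  · rw [abs_abs]; exact hμ
  · rw [abs_abs]; exact hμ2

/-- the first order term `v` dominates -/
theorem domv (R v u θ θ' μ Y T : ℝ) (B D s : ℕ) (hR : 200 ≤ R) (hs : s ≤ D) (hv : v * R ^ s = μ)
    (hμ : 3 / 2 ≤ |μ|) (hμ2 : |μ| ≤ R / 40) (hv1 : |v| ≤ 1 / 100) (hu : |u| ≤ |v| / 100)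
    (hθ : 0 ≤ θ ∧ θ ≤ v ^ 2) (hθ' : 0 ≤ θ' ∧ θ' ≤ u ^ 2)
    (hY : Y = R ^ D * ((v + θ) - (u + θ'))) (hT : |T| ≤ 3 / 100)
    (hYB : |Y| = R ^ B * (1 + T)) : False := by
  have hu2 : |u| ≤ 1 / 100 := by linarith [abs_nonneg v]
  have h1 := sq_small v hv1
  have h2 := sq_small u hu2
  refine dom R v (θ - u - θ') μ Y T B D s hR hs hv hμ hμ2 ?_ (by rw [hY]; ring) hT hYB
  have h3 : |θ - u - θ'| ≤ θ + |u| + θ' := by
    calc |θ - u - θ'| ≤ |θ - u| + |θ'| := abs_sub _ _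
      _ ≤ |θ| + |u| + |θ'| := by linarith [abs_sub θ u]
      _ = _ := by rw [abs_of_nonneg hθ.1, abs_of_nonneg hθ'.1]
  linarith [hθ.2, hθ'.2, abs_nonneg v]

/-- the case `a = c` -/
theorem eq_case (R : ℝ) (a p B : ℕ) (i k T : ℝ) (hR : 200 ≤ R) (ha : 1 ≤ a) (hp : 2 ≤ p)
    (hi : (p : ℝ) * |i| ≤ R / 100) (hk : (p : ℝ) * |k| ≤ R / 100) (hik : 1 ≤ |k - i|)
    (hT : |T| ≤ 3 / 100)
    (h : |(R ^ a + k) ^ p - (R ^ a + i) ^ p| = R ^ B * (1 + T)) : False := by
  have hn0 : (0 : ℝ) < R := by linarith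
  have hna : 0 < R ^ a := pow_pos hn0 _
  obtain ⟨i1, i2, i3⟩ := pow_form R a p i hR ha (by omega) hi
  obtain ⟨k1, k2, k3⟩ := pow_form R a p k hR ha (by omega) hk
  set s := k / R ^ a with hs
  set t := i / R ^ a with ht
  have hp0 : (0 : ℝ) < p := by exact_mod_cast (by omega : 0 < p)
  have hterm : ∀ j ∈ Finset.range p, |(1 + s) ^ j * (1 + t) ^ (p - 1 - j) - 1| ≤ 25 / 1000 := by
    intro j hj
    have hjp : j ≤ p := (Finset.mem_range.mp hj).le
    have hj2 : p - 1 - j ≤ p := by omega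
    have c1 : |(j : ℝ) * s| ≤ 1 / 100 := by
      refine le_trans ?_ k1
      rw [abs_mul, abs_mul, Nat.abs_cast, Nat.abs_cast]
      exact mul_le_mul_of_nonneg_right (by exact_mod_cast hjp) (abs_nonneg _)
    have c2 : |((p - 1 - j : ℕ) : ℝ) * t| ≤ 1 / 100 := by
      refine le_trans ?_ i1
      rw [abs_mul, abs_mul, Nat.abs_cast, Nat.abs_cast]
      exact mul_le_mul_of_nonneg_right (by exact_mod_cast hj2) (abs_nonneg _)
    obtain ⟨d1, d2⟩ := pow_one_add s j c1 k2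
    obtain ⟨e1, e2⟩ := pow_one_add t (p - 1 - j) c2 i2
    have d3 := sq_small _ c1
    have e3 := sq_small _ c2
    obtain ⟨f1, f2⟩ := abs_le.mp c1
    obtain ⟨g1, g2⟩ := abs_le.mp c2
    set A := (1 + s) ^ j
    set B' := (1 + t) ^ (p - 1 - j)
    have hA1 : 99 / 100 ≤ A := by linarith
    have hA2 : A ≤ 1 + 101 / 10000 := by
      have : (↑j * s) ^ 2 ≤ 1 / 10000 := by linarith
      linarith
    have hB1 : 99 / 100 ≤ B' := by linarith
    have hB2 : B' ≤ 1 + 101 / 10000 := by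
      have : (((p - 1 - j : ℕ) : ℝ) * t) ^ 2 ≤ 1 / 10000 := by linarith
      linarith
    rw [abs_le]
    constructor <;> nlinarith
  set S := ∑ j ∈ Finset.range p, (1 + s) ^ j * (1 + t) ^ (p - 1 - j) with hS
  have hS1 : |S - p| ≤ p * (25 / 1000) := by
    have : S - p = ∑ j ∈ Finset.range p, ((1 + s) ^ j * (1 + t) ^ (p - 1 - j) - 1) := by
      rw [Finset.sum_sub_distrib]; simp [hS]
    rw [this]
    refine (Finset.abs_sum_le_sum_abs _ _).trans ?_
    refine (Finset.sum_le_sum hterm).trans ?_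
    simp
  have hfac : (1 + s) ^ p - (1 + t) ^ p = S * (s - t) := by
    have := (geom_sum₂_mul (1 + s) (1 + t) p)
    rw [hS, ← this]; ring
  set β : ℝ := S / p - 1 with hβ
  have hβ1 : |β| ≤ 3 / 100 := by
    have : β = (S - p) / p := by rw [hβ]; field_simp
    rw [this, abs_div, abs_of_pos hp0, div_le_iff₀ hp0]
    linarith
  have hSβ : S = p * (1 + β) := by rw [hβ]; field_simp; ring
  have h1 : (R ^ a + k) ^ p - (R ^ a + i) ^ p =
      (p * (k - i)) * R ^ (a * p - a) * (1 + β) := by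
    rw [k3, i3]
    have h2 : R ^ (a * p) = R ^ (a * p - a) * R ^ a := by
      rw [← pow_add]; congr 1
      have : a ≤ a * p := Nat.le_mul_of_pos_right a (by omega)
      omega
    have h3 : s - t = (k - i) / R ^ a := by rw [hs, ht]; ring
    calc R ^ (a * p) * (1 + s) ^ p - R ^ (a * p) * (1 + t) ^ p
        = R ^ (a * p) * ((1 + s) ^ p - (1 + t) ^ p) := by ring
      _ = R ^ (a * p - a) * R ^ a * (p * (1 + β) * ((k - i) / R ^ a)) := by
          rw [hfac, hSβ, h3, h2]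
      _ = _ := by field_simp
  have h7 : 0 < 1 + β := by linarith [(abs_le.mp hβ1).1]
  have h8 : |(R ^ a + k) ^ p - (R ^ a + i) ^ p| =
      (p * |k - i|) * R ^ (a * p - a) * (1 + β) := by
    rw [h1, abs_mul, abs_mul, abs_mul, Nat.abs_cast, abs_of_pos h7,
      abs_of_pos (pow_pos hn0 (a * p - a))]
  have hp2 : (2 : ℝ) ≤ p := by exact_mod_cast hp
  refine size_contra R B (a * p - a) (p * |k - i|) T β hR ?_ ?_ hT hβ1 (by rw [← h, h8])
  · rw [abs_of_nonneg (by positivity)]; nlinarith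
  · rw [abs_of_nonneg (by positivity)]
    have := abs_sub k i
    nlinarith [abs_nonneg k, abs_nonneg i]

/-- an integer plus a small number -/
theorem int_add_small (d : ℤ) (τ : ℝ) (hd : d ≠ 0) (hτ : |τ| ≤ 1 / 200) :
    199 / 200 ≤ |τ + d| := by
  have h1 : (1 : ℝ) ≤ |(d : ℝ)| := by exact_mod_cast Int.one_le_abs hd
  have h2 : |(d : ℝ)| ≤ |τ + d| + |τ| := by
    have : (d : ℝ) = (τ + d) - τ := by ring
    calc |(d : ℝ)| = |(τ + d) - τ| := by rw [← this]
      _ ≤ _ := abs_sub _ _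
  linarith

/-- powers of `σ`, `|R σ| = 1` -/
theorem sigma_pow (R σ : ℝ) (hR : 200 ≤ R) (hσ : |R * σ| = 1) (a : ℕ) :
    |σ ^ a| * R ^ a = 1 ∧ (1 ≤ a → |σ ^ a| ≤ 1 / 200) := by
  have hn0 : (0 : ℝ) < R := by linarith
  have h1 : |σ ^ a| * R ^ a = 1 := by
    have : |σ ^ a| * R ^ a = |(R * σ) ^ a| := by
      rw [mul_pow, abs_mul, abs_of_pos (pow_pos hn0 a)]; ring
    rw [this, abs_pow, hσ, one_pow]
  refine ⟨h1, fun ha => ?_⟩
  have h2 : R ≤ R ^ a := le_self_pow₀ (by linarith) (by omega)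
  have h3 : |σ ^ a| * 200 ≤ |σ ^ a| * R ^ a :=
    mul_le_mul_of_nonneg_left (by linarith) (abs_nonneg _)
  linarith

/-- the asymmetric case `a < c` -/
theorem asym (R σ ε : ℝ) (a c p r B D : ℕ) (d f : ℤ) (u v θ θ' Y T : ℝ) (hR : 200 ≤ R)
    (hσε : R * σ = ε) (hε : |ε| = 1) (hac : a < c) (ha : 1 ≤ a) (hp : 2 ≤ p) (hr : 2 ≤ r)
    (hD1 : D = a * p) (hD2 : D = c * r)
    (hv : v = p * ((σ ^ a + d) / R ^ a)) (hu : u = r * ((σ ^ c + f) / R ^ c))
    (hpd : (p : ℝ) * (|(d : ℝ)| + 1) ≤ R / 100) (hrf : (r : ℝ) * (|(f : ℝ)| + 1) ≤ R / 100)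
    (hv1 : |v| ≤ 1 / 100) (hu1 : |u| ≤ 1 / 100)
    (hθ : 0 ≤ θ ∧ θ ≤ v ^ 2) (hθ' : 0 ≤ θ' ∧ θ' ≤ u ^ 2)
    (hY : Y = R ^ D * ((v + θ) - (u + θ'))) (hT : |T| ≤ 3 / 100)
    (hYB : |Y| = R ^ B * (1 + T))
    (hne : ¬ (c = 2 * a ∧ d = 0 ∧ (f : ℝ) = 2 * ε ^ a)) : False := by
  have hn0 : (0 : ℝ) < R := by linarith
  have hRa : 0 < R ^ a := pow_pos hn0 _
  have hRc : 0 < R ^ c := pow_pos hn0 _
  have hR2a : 0 < R ^ (2 * a) := pow_pos hn0 _
  have hσ1 : |R * σ| = 1 := by rw [hσε]; exact hε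
  have am : ∀ (w : ℝ) (s : ℕ), |w| * R ^ s = |w * R ^ s| := fun w s => by
    rw [abs_mul, abs_of_pos (pow_pos hn0 s)]
  obtain ⟨sa1, sa2⟩ := sigma_pow R σ hR hσ1 a
  obtain ⟨sc1, sc2⟩ := sigma_pow R σ hR hσ1 c
  have sa3 := sa2 ha
  have sc3 := sc2 (by omega)
  have hp1 : (2 : ℝ) ≤ p := by exact_mod_cast hp
  have hr1 : (2 : ℝ) ≤ r := by exact_mod_cast hr
  have hpR : (p : ℝ) ≤ R / 100 := by nlinarith [abs_nonneg (d : ℝ)]
  have hrR : (r : ℝ) ≤ R / 100 := by nlinarith [abs_nonneg (f : ℝ)]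
  have hva : v * R ^ a = p * (σ ^ a + d) := by rw [hv]; field_simp
  have huc : u * R ^ c = r * (σ ^ c + f) := by rw [hu]; field_simp
  have haD : a ≤ D := by rw [hD1]; exact Nat.le_mul_of_pos_right a (by omega)
  have hcD : c ≤ D := by rw [hD2]; exact Nat.le_mul_of_pos_right c (by omega)
  have h2aD : 2 * a ≤ D := by rw [hD1, mul_comm a p]; exact Nat.mul_le_mul_right a hp
  -- general bounds
  have bu : |u| * R ^ c ≤ R / 100 := by
    have h1 : |u| * R ^ c = r * |σ ^ c + f| := by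
      rw [am, huc, abs_mul, Nat.abs_cast]
    rw [h1]
    refine le_trans (mul_le_mul_of_nonneg_left ?_ (by linarith)) hrf
    have := abs_add_le (σ ^ c) (f : ℝ)
    linarith
  have bv : |v| * R ^ a ≤ R / 100 := by
    have h1 : |v| * R ^ a = p * |σ ^ a + d| := by
      rw [am, hva, abs_mul, Nat.abs_cast]
    rw [h1]
    refine le_trans (mul_le_mul_of_nonneg_left ?_ (by linarith)) hpd
    have := abs_add_le (σ ^ a) (d : ℝ)
    linarith
  by_cases hd : d = 0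
  swap
  · -- `d ≠ 0`
    have h1 := int_add_small d (σ ^ a) hd sa3
    have h2 : 3 / 2 ≤ |(p : ℝ) * (σ ^ a + d)| := by
      rw [abs_mul, Nat.abs_cast]; nlinarith
    have h3 : |v| * R ^ a = |(p : ℝ) * (σ ^ a + d)| := by
      rw [← hva, abs_mul, abs_of_pos hRa]
    refine domv R v u θ θ' _ Y T B D a hR haD hva h2 (by rw [← h3]; linarith) hv1 ?_ hθ hθ' hY hT
      hYB
    -- `|u| ≤ |v| / 100`
    have h4 : R * R ^ a ≤ R ^ c := by
      rw [← pow_succ']; exact pow_le_pow_right₀ (by linarith) hac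
    have h5 : |u| * (R * R ^ a) ≤ R / 100 :=
      le_trans (mul_le_mul_of_nonneg_left h4 (abs_nonneg _)) bu
    have h6 : |u| * R ^ a ≤ 1 / 100 := by
      have : R * (|u| * R ^ a) ≤ R * (1 / 100) := by linarith
      exact le_of_mul_le_mul_left this hn0
    have h7 : |u| * R ^ a ≤ |v| / 100 * R ^ a := by linarith
    exact le_of_mul_le_mul_right h7 hRa
  -- `d = 0`
  have hv2a : v * R ^ (2 * a) = p * ε ^ a := by
    have h1 : R ^ (2 * a) = R ^ a * R ^ a := by rw [← pow_add]; congr 1; ring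
    rw [h1, ← mul_assoc, hva, hd, ← hσε, mul_pow]
    push_cast
    ring
  have hεa : |ε ^ a| = 1 := by rw [abs_pow, hε, one_pow]
  have hv2 : |v| * R ^ (2 * a) = p := by
    rw [am, hv2a, abs_mul, Nat.abs_cast, hεa, mul_one]
  have hμ1 : 3 / 2 ≤ |(p : ℝ) * ε ^ a| := by
    rw [abs_mul, Nat.abs_cast, hεa, mul_one]; linarith
  have hμ2 : |(p : ℝ) * ε ^ a| ≤ R / 40 := by
    rw [abs_mul, Nat.abs_cast, hεa, mul_one]; linarith
  have fin1 : |u| * R ^ (2 * a) ≤ 1 / 100 → False := by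
    intro h
    refine domv R v u θ θ' _ Y T B D (2 * a) hR h2aD hv2a hμ1 hμ2 hv1 ?_ hθ hθ' hY hT hYB
    have h7 : |u| * R ^ (2 * a) ≤ |v| / 100 * R ^ (2 * a) := by linarith
    exact le_of_mul_le_mul_right h7 hR2a
  by_cases hf : f = 0
  · apply fin1
    have h1 : |u| * R ^ (2 * c) = r := by
      have h2 : R ^ (2 * c) = R ^ c * R ^ c := by rw [← pow_add]; congr 1; ring
      have h3 : |u| * R ^ c = r * |σ ^ c| := by
        rw [am, huc, hf, abs_mul, Nat.abs_cast]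
        push_cast
        rw [add_zero]
      rw [h2, ← mul_assoc, h3, mul_assoc, sc1, mul_one]
    have h4 : R * R ^ (2 * a) ≤ R ^ (2 * c) := by
      rw [← pow_succ']; exact pow_le_pow_right₀ (by linarith) (by omega)
    have h5 : |u| * (R * R ^ (2 * a)) ≤ R / 100 :=
      le_trans (mul_le_mul_of_nonneg_left h4 (abs_nonneg _)) (by linarith)
    have : R * (|u| * R ^ (2 * a)) ≤ R * (1 / 100) := by linarith
    exact le_of_mul_le_mul_left this hn0
  -- `f ≠ 0`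
  have hf1 := int_add_small f (σ ^ c) hf sc3
  have hfμ : 3 / 2 ≤ |(r : ℝ) * (σ ^ c + f)| := by
    rw [abs_mul, Nat.abs_cast]; nlinarith
  have hfu : |u| * R ^ c = |(r : ℝ) * (σ ^ c + f)| := by
    rw [← huc, abs_mul, abs_of_pos hRc]
  rcases Nat.lt_trichotomy c (2 * a) with hc | hc | hc
  · -- `c < 2 a`: `u` dominates
    refine domv R u v θ' θ _ (-Y) T B D c hR hcD huc hfμ (by rw [← hfu]; linarith) hu1 ?_ hθ' hθ
      (by rw [hY]; ring) hT (by rw [abs_neg]; exact hYB)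
    have h4 : R * R ^ c ≤ R ^ (2 * a) := by
      rw [← pow_succ']; exact pow_le_pow_right₀ (by linarith) hc
    have h5 : |v| * (R * R ^ c) ≤ R / 100 :=
      le_trans (mul_le_mul_of_nonneg_left h4 (abs_nonneg _)) (by linarith)
    have h6 : |v| * R ^ c ≤ 1 / 100 := by
      have : R * (|v| * R ^ c) ≤ R * (1 / 100) := by linarith
      exact le_of_mul_le_mul_left this hn0
    have h7 : |v| * R ^ c ≤ |u| / 100 * R ^ c := by linarith
    exact le_of_mul_le_mul_right h7 hRc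
  · -- `c = 2 a`
    have hpr : p = 2 * r := by
      have h1 : a * p = a * (2 * r) := by rw [← hD1, hD2, hc]; ring
      exact Nat.eq_of_mul_eq_mul_left (by omega) h1
    have hfne : (f : ℝ) ≠ 2 * ε ^ a := fun h => hne ⟨hc, hd, h⟩
    -- the leading coefficient
    have hε1 : ε ^ a = 1 ∨ ε ^ a = -1 := by
      rcases (abs_eq (by norm_num : (0 : ℝ) ≤ 1)).mp hεa with h | h
      · exact Or.inl h
      · exact Or.inr h
    obtain ⟨g, hg⟩ : ∃ g : ℤ, (g : ℝ) = 2 * ε ^ a - f := by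
      rcases hε1 with h | h
      · exact ⟨2 - f, by rw [h]; push_cast; ring⟩
      · exact ⟨-2 - f, by rw [h]; push_cast; ring⟩
    have hg0 : g ≠ 0 := by
      intro h
      rw [h] at hg
      push_cast at hg
      exact hfne (by linarith)
    have hw : (v - u) * R ^ (2 * a) = r * (-(σ ^ c) + g) := by
      rw [sub_mul, hv2a, ← hc, huc, hg, hpr]
      push_cast
      ring
    have hτ : |(-(σ ^ c))| ≤ 1 / 200 := by rw [abs_neg]; exact sc3
    have hg1 := int_add_small g (-(σ ^ c)) hg0 hτ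
    have hμ3 : 3 / 2 ≤ |(r : ℝ) * (-(σ ^ c) + g)| := by
      rw [abs_mul, Nat.abs_cast]; nlinarith
    have hu2a : |u| * R ^ (2 * a) ≤ R / 100 := by rw [← hc]; exact bu
    have hwabs : |v - u| * R ^ (2 * a) = |(r : ℝ) * (-(σ ^ c) + g)| := by
      rw [← hw, abs_mul, abs_of_pos hR2a]
    have hμ4 : |(r : ℝ) * (-(σ ^ c) + g)| ≤ R / 40 := by
      rw [← hwabs]
      have h1 := abs_sub v u
      have h2 : |v - u| * R ^ (2 * a) ≤ (|v| + |u|) * R ^ (2 * a) :=
        mul_le_mul_of_nonneg_right h1 hR2a.le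
      linarith
    refine dom R (v - u) (θ - θ') _ Y T B D (2 * a) hR h2aD hw hμ3 hμ4 ?_ (by rw [hY]; ring) hT
      hYB
    -- `|θ - θ'| ≤ 3 / 100 * |v - u|`
    have h2a2 : R ^ 2 ≤ R ^ (2 * a) := pow_le_pow_right₀ (by linarith) (by omega)
    have sq_bound : ∀ w : ℝ, |w| * R ^ (2 * a) ≤ R / 100 → w ^ 2 * R ^ (2 * a) ≤ 1 / 10000 := by
      intro w hw'
      have h1 : (|w| * R ^ (2 * a)) ^ 2 ≤ (R / 100) ^ 2 :=
        pow_le_pow_left₀ (by positivity) hw' 2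
      have h2 : (|w| * R ^ (2 * a)) ^ 2 = (w ^ 2 * R ^ (2 * a)) * R ^ (2 * a) := by
        rw [mul_pow, sq_abs]; ring
      have h3 : (w ^ 2 * R ^ (2 * a)) * R ^ 2 ≤ (w ^ 2 * R ^ (2 * a)) * R ^ (2 * a) :=
        mul_le_mul_of_nonneg_left h2a2 (by positivity)
      have h4 : (w ^ 2 * R ^ (2 * a)) * R ^ 2 ≤ (1 / 10000) * R ^ 2 := by
        rw [h2] at h1; linarith [h1, h3, show (R / 100) ^ 2 = 1 / 10000 * R ^ 2 by ring]
      exact le_of_mul_le_mul_right h4 (by positivity)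
    have hb1 := sq_bound v (by linarith)
    have hb2 := sq_bound u hu2a
    have h5 : |θ - θ'| ≤ v ^ 2 + u ^ 2 := by
      have := abs_sub θ θ'
      rw [abs_of_nonneg hθ.1, abs_of_nonneg hθ'.1] at this
      linarith [hθ.2, hθ'.2]
    have h6 : |θ - θ'| * R ^ (2 * a) ≤ 3 / 100 * |v - u| * R ^ (2 * a) := by
      have h7 : |θ - θ'| * R ^ (2 * a) ≤ (v ^ 2 + u ^ 2) * R ^ (2 * a) :=
        mul_le_mul_of_nonneg_right h5 hR2a.le
      linarith
    exact le_of_mul_le_mul_right h6 hR2a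
  · -- `2 a < c`
    apply fin1
    have h4 : R * R ^ (2 * a) ≤ R ^ c := by
      rw [← pow_succ']; exact pow_le_pow_right₀ (by linarith) hc
    have h5 : |u| * (R * R ^ (2 * a)) ≤ R / 100 :=
      le_trans (mul_le_mul_of_nonneg_left h4 (abs_nonneg _)) bu
    have : R * (|u| * R ^ (2 * a)) ≤ R * (1 / 100) := by linarith
    exact le_of_mul_le_mul_left this hn0

end Pool.Agent.helper349_fc
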