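import Mathlib
import Pool.Agent.helper349_fc.LucasCore

/-!
# Bases near terms of Lucas sequences with nearby parameters: the core lemmas
-/

set_option autoImplicit false

namespace Pool.Agent.helper349_fc

open Pool.Agent.helper616_fc (pow_one_add sq_small)

/-- the two largest powers belong to the same power of `R` -/
theorem expo_eq (R X Z Y xp zr : ℝ) (A B : ℕ) (hR : 200 ≤ R) (hX : |X| ≤ 2 / 100)
    (hZ : |Z| ≤ 2 / 100) (hxp : xp = R ^ A * (1 + X)) (hzr : zr = R ^ B * (1 + Z))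
    (heq : xp + Y = zr) (hle : Y ≤ xp) (hY0 : 0 < Y) : B = A := by
  have hn0 : (0 : ℝ) < R := by linarith
  obtain ⟨X1, X2⟩ := abs_le.mp hX
  obtain ⟨Z1, Z2⟩ := abs_le.mp hZ
  rcases Nat.lt_trichotomy B A with h | h | h
  · exfalso
    have h1 : R * R ^ B ≤ R ^ A := by
      rw [← pow_succ']
      exact pow_le_pow_right₀ (by linarith) h
    have h2 : 0 < R ^ B := pow_pos hn0 _
    have h3 : zr ≤ R ^ B * (102 / 100) := by
      rw [hzr]; exact mul_le_mul_of_nonneg_left (by linarith) h2.le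
    have h4 : R * R ^ B * (98 / 100) ≤ xp := by
      rw [hxp]; exact mul_le_mul h1 (by linarith) (by norm_num) (by positivity)
    have h5 : 200 * R ^ B ≤ R * R ^ B := mul_le_mul_of_nonneg_right hR h2.le
    linarith
  · exact h
  · exfalso
    have h1 : R * R ^ A ≤ R ^ B := by
      rw [← pow_succ']
      exact pow_le_pow_right₀ (by linarith) h
    have h2 : 0 < R ^ A := pow_pos hn0 _
    have h3 : xp ≤ R ^ A * (102 / 100) := by
      rw [hxp]; exact mul_le_mul_of_nonneg_left (by linarith) h2.le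
    have h4 : R * R ^ A * (98 / 100) ≤ zr := by
      rw [hzr]; exact mul_le_mul h1 (by linarith) (by norm_num) (by positivity)
    have h5 : 200 * R ^ A ≤ R * R ^ A := mul_le_mul_of_nonneg_right hR h2.le
    linarith

/-- the power of a base -/
theorem base_form (R i : ℝ) (a p : ℕ) (hR : 200 ≤ R) (ha : 1 ≤ a) (hp : 1 ≤ p)
    (hi : (p : ℝ) * |i| ≤ R / 100) :
    ∃ X : ℝ, (R ^ a + i) ^ p = R ^ (a * p) * (1 + X) ∧
      |X| ≤ 101 / 100 * ((p : ℝ) * |i| / R ^ a) := by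
  have hn0 : (0 : ℝ) < R := by linarith
  have hna : 0 < R ^ a := pow_pos hn0 _
  obtain ⟨x1, x2, x3⟩ := pow_form R a p i hR ha hp hi
  obtain ⟨X1, X2⟩ := pow_one_add _ p x1 x2
  refine ⟨(1 + i / R ^ a) ^ p - 1, by rw [x3]; ring, ?_⟩
  have h1 : |(p : ℝ) * (i / R ^ a)| = (p : ℝ) * |i| / R ^ a := by
    rw [abs_mul, abs_div, abs_of_pos hna, Nat.abs_cast, mul_div_assoc]
  have h2 := sq_small _ x1
  rw [← h1]
  obtain ⟨θ, hθ⟩ : ∃ θ : ℝ, θ = (1 + i / R ^ a) ^ p - 1 - p * (i / R ^ a) := ⟨_, rfl⟩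
  rw [← hθ] at X1 X2
  have h3 : (1 + i / R ^ a) ^ p - 1 = p * (i / R ^ a) + θ := by rw [hθ]; ring
  rw [h3]
  have h4 := abs_add_le (p * (i / R ^ a)) θ
  rw [abs_of_nonneg X1] at h4
  linarith

/-- **different parameters** -/
theorem far (R R' δ X Z T Y xp zr μ : ℝ) (D1 D2 B s : ℕ) (hR : 200 ≤ R)
    (hR' : R' = R * (1 + δ)) (h1D : 1 ≤ D2) (hδ1 : (D1 : ℝ) * |δ| ≤ 1 / 1000)
    (hδ2 : (D2 : ℝ) * |δ| ≤ 1 / 1000) (hs : s ≤ D1)
    (hxp : xp = R ^ D1 * (1 + X)) (hzr : zr = R' ^ D2 * (1 + Z))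
    (hX : |X| ≤ |(D1 : ℝ) * δ| / 100) (hZ : |Z| ≤ |(D1 : ℝ) * δ| / 100)
    (hμ : ((D1 : ℝ) * δ) * R ^ s = μ) (hμ1 : 3 / 2 ≤ |μ|) (hμ2 : |μ| ≤ R / 40)
    (heq : xp + Y = zr) (hle : Y ≤ xp) (hY0 : 0 < Y) (hY : Y = R ^ B * (1 + T))
    (hT : |T| ≤ 3 / 100) : False := by
  have hn0 : (0 : ℝ) < R := by linarith
  have hD1' : |(D1 : ℝ) * δ| = D1 * |δ| := by rw [abs_mul, Nat.abs_cast]
  have hD2' : |(D2 : ℝ) * δ| = D2 * |δ| := by rw [abs_mul, Nat.abs_cast]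
  have hD2R : (1 : ℝ) ≤ D2 := by exact_mod_cast h1D
  have hδ : |δ| ≤ 1 / 100 := by
    have : 1 * |δ| ≤ D2 * |δ| := mul_le_mul_of_nonneg_right hD2R (abs_nonneg _)
    linarith
  obtain ⟨O1, O2⟩ := pow_one_add δ D2 (by rw [hD2']; linarith) hδ
  obtain ⟨θ, hθ⟩ : ∃ θ : ℝ, θ = (1 + δ) ^ D2 - 1 - D2 * δ := ⟨_, rfl⟩
  rw [← hθ] at O1 O2
  have hω : (1 + δ) ^ D2 = 1 + (D2 * δ + θ) := by rw [hθ]; ring
  have hsq2 : ((D2 : ℝ) * δ) ^ 2 ≤ 1 / 1000 * |(D2 : ℝ) * δ| := by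
    rw [← sq_abs, pow_two]
    exact mul_le_mul_of_nonneg_right (by rw [hD2']; exact hδ2) (abs_nonneg _)
  have hω1 : |(D2 : ℝ) * δ + θ| ≤ 2 / 1000 := by
    have h1 := abs_add_le ((D2 : ℝ) * δ) θ
    rw [abs_of_nonneg O1] at h1
    rw [hD2'] at h1 hsq2
    have : 1 / 1000 * ((D2 : ℝ) * |δ|) ≤ 1 / 1000 * 1 := by
      apply mul_le_mul_of_nonneg_left _ (by norm_num)
      linarith
    linarith
  obtain ⟨o1, o2⟩ := abs_le.mp hω1
  have hXs : |X| ≤ 1 / 1000 := by rw [hD1'] at hX; linarith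
  have hZs : |Z| ≤ 1 / 1000 := by rw [hD1'] at hZ; linarith
  obtain ⟨z1, z2⟩ := abs_le.mp hZs
  obtain ⟨Z', hZ'⟩ : ∃ Z' : ℝ, Z' = (1 + (D2 * δ + θ)) * (1 + Z) - 1 := ⟨_, rfl⟩
  have hzr' : zr = R ^ D2 * (1 + Z') := by
    rw [hzr, hR', mul_pow, hω, hZ']; ring
  have hZ'b : |Z'| ≤ 2 / 100 := by
    rw [hZ', abs_le]
    constructor <;> nlinarith
  have hD := expo_eq R X Z' Y xp zr D1 D2 hR (by linarith) hZ'b hxp hzr' heq hle hY0
  subst hD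
  refine dom R ((D2 : ℝ) * δ) (θ + Z * (1 + (D2 * δ + θ)) - X) μ Y T B D2 s hR hs hμ hμ1 hμ2 ?_ ?_
    hT (by rw [abs_of_pos hY0]; exact hY)
  · have h1 : |θ + Z * (1 + (D2 * δ + θ)) - X| ≤ θ + |Z| * (1002 / 1000) + |X| := by
      have h2 : |Z * (1 + ((D2 : ℝ) * δ + θ))| ≤ |Z| * (1002 / 1000) := by
        rw [abs_mul]
        apply mul_le_mul_of_nonneg_left _ (abs_nonneg _)
        rw [abs_le]
        constructor <;> linarith
      have h3 := abs_sub (θ + Z * (1 + ((D2 : ℝ) * δ + θ))) X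
      have h4 := abs_add_le θ (Z * (1 + ((D2 : ℝ) * δ + θ)))
      rw [abs_of_nonneg O1] at h4
      linarith
    have h5 := abs_nonneg ((D2 : ℝ) * δ)
    have h6 : |Z| * (1002 / 1000) ≤ |(D2 : ℝ) * δ| / 100 * (1002 / 1000) :=
      mul_le_mul_of_nonneg_right hZ (by norm_num)
    linarith
  · have : Y = zr - xp := by linarith
    rw [this, hzr', hxp, hZ']; ring

/-- **equal parameters** -/
theorem core' (R σ ε : ℝ) (hR : 200 ≤ R) (hσε : R * σ = ε) (hε : |ε| = 1)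
    (a c p r x z B : ℕ) (d f : ℤ) (Y T : ℝ) (ha : 1 ≤ a) (hc : 1 ≤ c)
    (hp : 2 ≤ p) (hr : 2 ≤ r)
    (hx : (x : ℝ) = R ^ a + (σ ^ a + d)) (hz : (z : ℝ) = R ^ c + (σ ^ c + f))
    (hpd : (p : ℝ) * (|(d : ℝ)| + 1) ≤ R / 100) (hpf : (p : ℝ) * (|(f : ℝ)| + 1) ≤ R / 100)
    (hrf : (r : ℝ) * (|(f : ℝ)| + 1) ≤ R / 100)
    (hco : Nat.Coprime x z) (hx2 : 2 ≤ x) (hz2 : 2 ≤ z) (heqR : (x : ℝ) ^ p + Y = (z : ℝ) ^ r)
    (hleR : Y ≤ (x : ℝ) ^ p) (hYpos : 0 < Y) (hY : Y = R ^ B * (1 + T)) (hT : |T| ≤ 3 / 100) :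
    False := by
  have hn0 : (0 : ℝ) < R := by linarith
  have hσ1 : |R * σ| = 1 := by rw [hσε]; exact hε
  have hsig : ∀ t : ℕ, 1 ≤ t → |σ ^ t| ≤ 1 := fun t ht =>
    ((sigma_pow R σ hR hσ1 t).2 ht).trans (by norm_num)
  have habs : ∀ (t : ℕ) (g : ℤ) (E : ℕ), 1 ≤ t → (E : ℝ) * (|(g : ℝ)| + 1) ≤ R / 100 →
      (E : ℝ) * |σ ^ t + g| ≤ R / 100 := by
    intro t g E ht h
    refine le_trans (mul_le_mul_of_nonneg_left ?_ (by positivity)) h
    have := abs_add_le (σ ^ t) (g : ℝ)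
    linarith [hsig t ht]
  have hpi := habs a d p ha hpd
  have hpk := habs c f p hc hpf
  have hrk := habs c f r hc hrf
  obtain ⟨i, hi⟩ : ∃ i : ℝ, i = σ ^ a + d := ⟨_, rfl⟩
  obtain ⟨k, hk⟩ : ∃ k : ℝ, k = σ ^ c + f := ⟨_, rfl⟩
  rw [← hi] at hpi hx
  rw [← hk] at hpk hrk hz
  obtain ⟨x1, x2, x3⟩ := pow_form R a p i hR ha (by omega) hpi
  obtain ⟨z1, z2, z3⟩ := pow_form R c r k hR hc (by omega) hrk
  obtain ⟨X1, X2⟩ := pow_one_add _ p x1 x2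
  obtain ⟨Z1, Z2⟩ := pow_one_add _ r z1 z2
  set v := (p : ℝ) * (i / R ^ a) with hv
  set u := (r : ℝ) * (k / R ^ c) with hu
  obtain ⟨θ, hθ⟩ : ∃ θ : ℝ, θ = (1 + i / R ^ a) ^ p - 1 - v := ⟨_, rfl⟩
  obtain ⟨θz, hθz⟩ : ∃ θ : ℝ, θ = (1 + k / R ^ c) ^ r - 1 - u := ⟨_, rfl⟩
  rw [← hθ] at X1 X2
  rw [← hθz] at Z1 Z2
  have hX : (x : ℝ) ^ p = R ^ (a * p) * (1 + (v + θ)) := by rw [hx, x3, hθ]; ring
  have hZ : (z : ℝ) ^ r = R ^ (c * r) * (1 + (u + θz)) := by rw [hz, z3, hθz]; ring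
  have hv2 := sq_small v x1
  have hu2 := sq_small u z1
  have hvb : |v + θ| ≤ 2 / 100 := by
    have := abs_add_le v θ
    rw [abs_of_nonneg X1] at this
    linarith
  have hub : |u + θz| ≤ 2 / 100 := by
    have := abs_add_le u θz
    rw [abs_of_nonneg Z1] at this
    linarith
  have hD : c * r = a * p :=
    expo_eq R _ _ Y _ _ (a * p) (c * r) hR hvb hub hX hZ heqR hleR hYpos
  have hYabs : |Y| = R ^ B * (1 + T) := by rw [abs_of_pos hYpos, hY]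
  have hYneg : |-Y| = R ^ B * (1 + T) := by rw [abs_neg, abs_of_pos hYpos, hY]
  have hdiff : Y = R ^ (a * p) * ((u + θz) - (v + θ)) := by
    have : Y = (z : ℝ) ^ r - (x : ℝ) ^ p := by linarith
    rw [this, hZ, hX, hD]; ring
  have hdiff' : -Y = R ^ (a * p) * ((v + θ) - (u + θz)) := by
    rw [hdiff]; ring
  -- a base is not the square of another one
  have hsq : ∀ s t : ℕ, 2 ≤ s → Nat.Coprime s t → (t : ℝ) = (s : ℝ) ^ 2 → False := by
    intro s t hs hst h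
    have h1 : t = s ^ 2 := by exact_mod_cast h
    have h2 : s ∣ Nat.gcd s t := Nat.dvd_gcd dvd_rfl (h1 ▸ dvd_pow_self s (by norm_num))
    rw [hst] at h2
    have := Nat.le_of_dvd one_pos h2
    omega
  have hsquare : ∀ t : ℕ, R ^ (2 * t) + (σ ^ (2 * t) + 2 * ε ^ t) = (R ^ t + (σ ^ t + 0)) ^ 2 := by
    intro t
    rw [← hσε, mul_pow, mul_comm 2 t, pow_mul, pow_mul]
    ring
  rcases Nat.lt_trichotomy a c with hac | hac | hac
  · -- `a < c`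
    refine asym R σ ε a c p r B (a * p) d f u v θ θz (-Y) T hR hσε hε hac
      ha hp hr rfl hD.symm (by rw [hv, hi]) (by rw [hu, hk]) hpd hrf x1 z1 ⟨X1, X2⟩ ⟨Z1, Z2⟩
      hdiff' hT hYneg ?_
    rintro ⟨h1, h2, h3⟩
    refine hsq x z hx2 hco ?_
    rw [hz, hk, hx, hi, h1, h2, h3, hsquare]
    push_cast
    ring
  · -- `a = c`
    subst hac
    have hrp : r = p := Nat.eq_of_mul_eq_mul_left (by omega) hD
    subst hrp
    have hik : 1 ≤ |k - i| := by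
      have h1 : k - i = (z : ℝ) - x := by rw [hz, hx]; ring
      rw [h1]
      have h2 : ((z : ℤ) - (x : ℤ)) ≠ 0 := by
        intro h3
        have h4 : z = x := by
          have : (z : ℤ) = x := by linarith
          exact_mod_cast this
        rw [h4] at heqR
        linarith
      have h3 := Int.one_le_abs h2
      have h4 : ((1 : ℤ) : ℝ) ≤ ((|(z : ℤ) - (x : ℤ)| : ℤ) : ℝ) := by exact_mod_cast h3
      push_cast at h4
      exact h4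
    refine eq_case R a r B i k T hR ha hr hpi hpk hik hT ?_
    rw [← hz, ← hx, ← hYabs]
    congr 1
    linarith
  · -- `c < a`
    refine asym R σ ε c a r p B (a * p) f d v u θz θ Y T hR hσε hε hac
      hc hr hp hD.symm rfl (by rw [hu, hk]) (by rw [hv, hi]) hrf hpd z1 x1 ⟨Z1, Z2⟩ ⟨X1, X2⟩
      hdiff hT hYabs ?_
    rintro ⟨h1, h2, h3⟩
    refine hsq z x hz2 hco.symm ?_
    rw [hx, hi, hz, hk, h1, h2, h3, hsquare]
    push_cast
    ring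

end Pool.Agent.helper349_fc
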