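import Mathlib
import Pool.Agent.helper349_fc.LucasWindow
import Pool.Agent.helper349_fc.LucasV

/-!
# Bases near terms of Lucas sequences with nearby parameters: the case analysis
-/

set_option autoImplicit false

namespace Pool.Agent.helper349_fc

open Pool.Agent.helper616_fc (pow_one_add sq_small)

theorem V_eq (P Q : ℤ) (R σ : ℝ) (h1 : R + σ = P) (h2 : R * σ = Q) :
    ∀ n : ℕ, (V P Q n : ℝ) = R ^ n + σ ^ n ∧ (V P Q (n + 1) : ℝ) = R ^ (n + 1) + σ ^ (n + 1) := by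
  intro n
  induction n with
  | zero =>
    refine ⟨?_, ?_⟩
    · simp only [V, pow_zero]; norm_num
    · simp only [V, zero_add, pow_one]; rw [h1]
  | succ n ih =>
    refine ⟨ih.2, ?_⟩
    have h3 : V P Q (n + 1 + 1) = P * V P Q (n + 1) - Q * V P Q n := rfl
    rw [h3]
    push_cast
    rw [ih.1, ih.2, ← h1, ← h2]
    ring

/-- the roots of `X ^ 2 - P X + Q` -/
theorem root (P : ℕ) (Q : ℤ) (hQ : Q = 1 ∨ Q = -1) (hP : 400 ≤ (P : ℝ)) :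
    ∃ R σ : ℝ, 200 ≤ R ∧ |R - P| ≤ 1 / 200 ∧ R * σ = Q ∧ |(Q : ℝ)| = 1 ∧
      ∀ t : ℕ, (V P Q t : ℝ) = R ^ t + σ ^ t := by
  have hQR : (Q : ℝ) = 1 ∨ (Q : ℝ) = -1 := by
    rcases hQ with h | h
    · left; rw [h]; norm_num
    · right; rw [h]; norm_num
  have hQ1 : |(Q : ℝ)| = 1 := by
    rcases hQR with h | h <;> rw [h] <;> norm_num
  have hQle := abs_le.mp hQ1.le
  have hdisc : 0 ≤ (P : ℝ) ^ 2 - 4 * Q := by nlinarith [hQle.2]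
  obtain ⟨s, hs⟩ : ∃ s : ℝ, s = Real.sqrt ((P : ℝ) ^ 2 - 4 * Q) := ⟨_, rfl⟩
  have hs2 : s ^ 2 = (P : ℝ) ^ 2 - 4 * Q := by rw [hs]; exact Real.sq_sqrt hdisc
  have hs0 : 0 ≤ s := by rw [hs]; exact Real.sqrt_nonneg _
  have hsum : (P + s) / 2 + (P - s) / 2 = ((P : ℤ) : ℝ) := by push_cast; ring
  have hprod : (P + s) / 2 * ((P - s) / 2) = (Q : ℝ) := by
    have : (P + s) / 2 * ((P - s) / 2) = ((P : ℝ) ^ 2 - s ^ 2) / 4 := by ring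
    rw [this, hs2]; ring
  have hR200 : 200 ≤ (P + s) / 2 := by linarith
  refine ⟨(P + s) / 2, (P - s) / 2, hR200, ?_, hprod, hQ1, fun t => (V_eq P Q _ _ hsum hprod t).1⟩
  have h1 := (sigma_pow _ _ hR200 (by rw [hprod]; exact hQ1) 1).2 le_rfl
  rw [pow_one] at h1
  have h2 : (P + s) / 2 - (P : ℝ) = -((P - s) / 2) := by ring
  rw [h2, abs_neg]
  exact h1

/-- the deviation terms are small -/
theorem small_dev (R σ : ℝ) (hR : 200 ≤ R) (hσ : |R * σ| = 1) (a p s : ℕ) (d : ℤ) (ha : 1 ≤ a)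
    (hpd : (p : ℝ) * (|(d : ℝ)| + 1) ≤ R / 1000) (h : s + 1 ≤ a ∨ (d = 0 ∧ s ≤ a)) :
    ((p : ℝ) * |σ ^ a + d| / R ^ a) * R ^ s ≤ 1 / 1000 := by
  have hn0 : (0 : ℝ) < R := by linarith
  have hRa : 0 < R ^ a := pow_pos hn0 _
  obtain ⟨s1, s2⟩ := sigma_pow R σ hR hσ a
  have s3 := s2 ha
  have hi : |σ ^ a + d| ≤ |(d : ℝ)| + 1 := by
    have := abs_add_le (σ ^ a) (d : ℝ)
    linarith
  rcases h with h | ⟨h1, h2⟩
  · have h1 : R * R ^ s ≤ R ^ a := by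
      rw [← pow_succ']; exact pow_le_pow_right₀ (by linarith) h
    have h2 : (p : ℝ) * |σ ^ a + d| ≤ R / 1000 :=
      le_trans (mul_le_mul_of_nonneg_left hi (Nat.cast_nonneg _)) hpd
    rw [div_mul_eq_mul_div, div_le_iff₀ hRa]
    have h3 : (p : ℝ) * |σ ^ a + d| * R ^ s ≤ R / 1000 * R ^ s :=
      mul_le_mul_of_nonneg_right h2 (by positivity)
    linarith
  · have h3 : R ^ s ≤ R ^ a := pow_le_pow_right₀ (by linarith) h2
    have h4 : R ≤ R ^ a := le_self_pow₀ (by linarith) (by omega)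
    have hp : (p : ℝ) ≤ R / 1000 := by
      have : (p : ℝ) * 1 ≤ p * (|(d : ℝ)| + 1) :=
        mul_le_mul_of_nonneg_left (by linarith [abs_nonneg (d : ℝ)]) (Nat.cast_nonneg _)
      linarith
    rw [h1, Int.cast_zero, add_zero, div_mul_eq_mul_div, div_le_iff₀ hRa]
    have h5 : (p : ℝ) * |σ ^ a| * R ^ s ≤ (p : ℝ) * |σ ^ a| * R ^ a :=
      mul_le_mul_of_nonneg_left h3 (by positivity)
    have h6 : (p : ℝ) * |σ ^ a| * R ^ a = p := by rw [mul_assoc, s1, mul_one]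
    linarith

/-- the parameters of a base -/
theorem facts (n W E L R σ : ℝ) (hW : 1 ≤ W) (hE : 1 ≤ E) (hL : 1 ≤ L)
    (hbig : 60000 * (E * L * W) ≤ n) (P : ℕ) (Q : ℤ) (hQ1 : |(Q : ℝ)| = 1) (hR : 200 ≤ R)
    (hPn : |(P : ℝ) - n| ≤ 2 * W) (hRP : |R - P| ≤ 1 / 200) (hprod : R * σ = Q)
    (hV : ∀ t : ℕ, (V P Q t : ℝ) = R ^ t + σ ^ t) (a u : ℕ) (ha : 1 ≤ a)
    (hu : |(u : ℝ) - V P Q a| ≤ 5 * W) (huL : (u : ℝ) ≤ Real.exp L) :
    ((u : ℝ) = R ^ a + (σ ^ a + (((u : ℤ) - V P Q a : ℤ) : ℝ))) ∧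
    (∀ e : ℕ, (e : ℝ) ≤ E → (e : ℝ) * (|(((u : ℤ) - V P Q a : ℤ) : ℝ)| + 1) ≤ R / 1000) ∧
    (a : ℝ) ≤ L ∧ n / 2 ≤ R := by
  have hEL : 1 ≤ E * L := by nlinarith
  have hELW : W ≤ E * L * W := by nlinarith
  have hEW : E * W ≤ E * L * W := by
    have : E * W * 1 ≤ E * W * L := mul_le_mul_of_nonneg_left hL (by positivity)
    linarith
  have hRn : n / 2 ≤ R := by
    have h1 := (abs_le.mp hPn).1
    have h2 := (abs_le.mp hRP).1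
    linarith
  have hσ1 : |R * σ| = 1 := by rw [hprod]; exact hQ1
  have s3 := (sigma_pow R σ hR hσ1 a).2 ha
  refine ⟨by push_cast; rw [hV a]; ring, ?_, ?_, hRn⟩
  · intro e he
    have h1 : |(((u : ℤ) - V P Q a : ℤ) : ℝ)| ≤ 5 * W := by push_cast; exact hu
    have h2 : (e : ℝ) * (|(((u : ℤ) - V P Q a : ℤ) : ℝ)| + 1) ≤ E * (6 * W) :=
      mul_le_mul he (by linarith) (by positivity) (by linarith)
    linarith
  · rw [← Real.exp_le_exp]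
    refine le_trans ?_ huL
    have h1 : Real.exp (a : ℝ) ≤ 3 ^ a := by
      have h2 : Real.exp (a : ℝ) = Real.exp 1 ^ a := by rw [← Real.exp_nat_mul, mul_one]
      rw [h2]
      exact pow_le_pow_left₀ (Real.exp_pos _).le (by linarith [Real.exp_one_lt_d9]) a
    have h3 : (3 : ℝ) ^ a * 2 ≤ R ^ a := by
      calc (3 : ℝ) ^ a * 2 ≤ 3 ^ a * 2 ^ a := by
            apply mul_le_mul_of_nonneg_left _ (by positivity)
            exact le_self_pow₀ (by norm_num) (by omega)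
        _ = 6 ^ a := by rw [← mul_pow]; norm_num
        _ ≤ R ^ a := pow_le_pow_left₀ (by norm_num) (by linarith) a
    have h4 : R ≤ R ^ a := le_self_pow₀ (by linarith) (by omega)
    have h5 := (abs_le.mp hu).1
    rw [hV a] at h5
    have h6 := (abs_le.mp s3).1
    linarith


theorem delta (n W E L R R' : ℝ) (D : ℕ) (hE : 1 ≤ E) (hL : 1 ≤ L)
    (hbig : 60000 * (E * L * W) ≤ n) (hR0 : 200 ≤ R) (hR : n / 2 ≤ R) (hRR : |R' - R| ≤ 5 * W)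
    (hD : (D : ℝ) ≤ E * L) :
    (D : ℝ) * |(R' - R) / R| ≤ 1 / 1000 ∧ (D : ℝ) * |R' - R| ≤ R / 1000 := by
  have hn0 : (0 : ℝ) < R := by linarith
  have h1 : (D : ℝ) * |R' - R| ≤ (E * L) * (5 * W) :=
    mul_le_mul hD hRR (abs_nonneg _) (by positivity)
  have h2 : (D : ℝ) * |R' - R| ≤ R / 1000 := by linarith
  refine ⟨?_, h2⟩
  rw [abs_div, abs_of_pos hn0, ← mul_div_assoc, div_le_iff₀ hn0]
  linarith

theorem mul_small (w X : ℝ) (hw : |w| ≤ 2 / 1000) (hX : |X| ≤ 2 / 1000) :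
    |(1 + w) * (1 + X) - 1| ≤ 3 / 100 := by
  have h1 : (1 + w) * (1 + X) - 1 = w + X + w * X := by ring
  have h2 := abs_add_le (w + X) (w * X)
  have h3 := abs_add_le w X
  have h4 : |w * X| ≤ 2 / 1000 * (2 / 1000) := by
    rw [abs_mul]; exact mul_le_mul hw hX (abs_nonneg _) (by norm_num)
  rw [h1]
  linarith

/-- the third base -/
theorem third (n W E L R : ℝ) (hW : 1 ≤ W) (hE : 1 ≤ E) (hL : 1 ≤ L)
    (hbig : 60000 * (E * L * W) ≤ n) (hR : 200 ≤ R) (hRn : |R - n| ≤ 3 * W) (P : ℕ) (Q : ℤ)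
    (hQ : Q = 1 ∨ Q = -1) (hPn : |(P : ℝ) - n| ≤ W) (b q y : ℕ) (hb : 1 ≤ b) (hq : 2 ≤ q)
    (hqE : (q : ℝ) ≤ E) (hy : |(y : ℝ) - V P Q b| ≤ W) (hyL : (y : ℝ) ≤ Real.exp L) :
    ∃ T : ℝ, (y : ℝ) ^ q = R ^ (b * q) * (1 + T) ∧ |T| ≤ 3 / 100 := by
  have hEL : 1 ≤ E * L := by nlinarith
  have hELW : W ≤ E * L * W := by nlinarith
  have hn0 : (0 : ℝ) < R := by linarith
  have hP1 := (abs_le.mp hPn).1
  have hP400 : 400 ≤ (P : ℝ) := by linarith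
  obtain ⟨R₂, σ₂, r1, r2, r3, r4, r5⟩ := root P Q hQ hP400
  obtain ⟨f1, f2, f3, f4⟩ := facts n W E L R₂ σ₂ hW hE hL hbig P Q r4 r1 (by linarith) r2 r3 r5 b y hb
    (by linarith) hyL
  have hσ1 : |R₂ * σ₂| = 1 := by rw [r3]; exact r4
  have hdev := f2 q hqE
  obtain ⟨e, he⟩ : ∃ e : ℤ, e = (y : ℤ) - V P Q b := ⟨_, rfl⟩
  rw [← he] at f1 hdev
  have s3 := (sigma_pow R₂ σ₂ r1 hσ1 b).2 hb
  have hi : (q : ℝ) * |σ₂ ^ b + e| ≤ R₂ / 100 := by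
    have h1 : |σ₂ ^ b + e| ≤ |(e : ℝ)| + 1 := by
      have := abs_add_le (σ₂ ^ b) (e : ℝ)
      linarith
    have h2 := mul_le_mul_of_nonneg_left h1 (Nat.cast_nonneg q (α := ℝ))
    linarith
  obtain ⟨X, x1, x2⟩ := base_form R₂ (σ₂ ^ b + e) b q r1 hb (by omega) hi
  have hsm := small_dev R₂ σ₂ r1 hσ1 b q 0 e hb hdev (Or.inl (by omega))
  rw [pow_zero, mul_one] at hsm
  have hX : |X| ≤ 2 / 1000 := by linarith
  have hRR : |R₂ - R| ≤ 5 * W := by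
    have h1 : R₂ - R = (R₂ - P) + (P - n) - (R - n) := by ring
    have h2 := abs_sub ((R₂ - P) + ((P : ℝ) - n)) (R - n)
    have h3 := abs_add_le (R₂ - P) ((P : ℝ) - n)
    rw [h1]
    linarith
  have hRn2 : n / 2 ≤ R := by linarith [(abs_le.mp hRn).1]
  have hbq : ((b * q : ℕ) : ℝ) ≤ E * L := by
    push_cast
    calc (b : ℝ) * q ≤ L * E := mul_le_mul f3 hqE (Nat.cast_nonneg _) (by linarith)
      _ = E * L := mul_comm _ _
  obtain ⟨d1, d2⟩ := delta n W E L R R₂ (b * q) hE hL hbig hR hRn2 hRR hbq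
  obtain ⟨δ, hδ⟩ : ∃ δ : ℝ, δ = (R₂ - R) / R := ⟨_, rfl⟩
  rw [← hδ] at d1
  have hR₂ : R₂ = R * (1 + δ) := by rw [hδ]; field_simp; ring
  have hD' : |((b * q : ℕ) : ℝ) * δ| = ((b * q : ℕ) : ℝ) * |δ| := by rw [abs_mul, Nat.abs_cast]
  have hbq1 : (1 : ℝ) ≤ ((b * q : ℕ) : ℝ) := by
    have : 1 ≤ b * q := Nat.mul_pos hb (by omega)
    exact_mod_cast this
  have hδ1 : |δ| ≤ 1 / 100 := by
    have : 1 * |δ| ≤ ((b * q : ℕ) : ℝ) * |δ| := mul_le_mul_of_nonneg_right hbq1 (abs_nonneg _)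
    linarith
  have hs1 : |((b * q : ℕ) : ℝ) * δ| ≤ 1 / 100 := by rw [hD']; linarith
  obtain ⟨O1, O2⟩ := pow_one_add δ (b * q) hs1 hδ1
  have O3 := sq_small _ hs1
  obtain ⟨θ, hθ⟩ : ∃ θ : ℝ, θ = (1 + δ) ^ (b * q) - 1 - ((b * q : ℕ) : ℝ) * δ := ⟨_, rfl⟩
  rw [← hθ] at O1 O2
  have hω : (1 + δ) ^ (b * q) = 1 + (((b * q : ℕ) : ℝ) * δ + θ) := by rw [hθ]; ring
  have hω1 : |((b * q : ℕ) : ℝ) * δ + θ| ≤ 2 / 1000 := by
    have h1 := abs_add_le (((b * q : ℕ) : ℝ) * δ) θ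
    rw [abs_of_nonneg O1] at h1
    rw [hD'] at h1 O3
    linarith
  refine ⟨(1 + (((b * q : ℕ) : ℝ) * δ + θ)) * (1 + X) - 1, ?_, ?_⟩
  · rw [f1, x1, hR₂, mul_pow, hω]
    ring
  · exact mul_small _ _ hω1 hX


theorem farV (n W E L R σ R' σ' : ℝ) (s : ℕ) (hs1 : 1 ≤ s) (hs2 : s ≤ 2) (hE : 1 ≤ E) (hL : 1 ≤ L)
    (hbig : 60000 * (E * L * W) ≤ n) (hR : 200 ≤ R) (hR' : 200 ≤ R') (hn : n / 2 ≤ R)
    (hσ1 : |R * σ| = 1) (hσ1' : |R' * σ'| = 1) (hRR : |R' - R| ≤ 5 * W) (hRR2 : R ≤ 2 * R')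
    (a c p r x z B : ℕ) (d f : ℤ) (ha : 1 ≤ a) (hc : 1 ≤ c) (hp : 2 ≤ p) (hr : 2 ≤ r)
    (hx : (x : ℝ) = R ^ a + (σ ^ a + d)) (hz : (z : ℝ) = R' ^ c + (σ' ^ c + f))
    (hpd : (p : ℝ) * (|(d : ℝ)| + 1) ≤ R / 1000) (hrf : (r : ℝ) * (|(f : ℝ)| + 1) ≤ R' / 1000)
    (haL : (a : ℝ) ≤ L) (hcL : (c : ℝ) ≤ L) (hpE : (p : ℝ) ≤ E) (hrE : (r : ℝ) ≤ E)
    (h1 : s + 1 ≤ a ∨ (d = 0 ∧ s ≤ a)) (h2 : s + 1 ≤ c ∨ (f = 0 ∧ s ≤ c))
    (hμ1 : 3 / 2 ≤ |((a * p : ℕ) : ℝ) * (R' - R) * R ^ (s - 1)|)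
    (hμ2 : |((a * p : ℕ) : ℝ) * (R' - R) * R ^ (s - 1)| ≤ R / 40) (Y T : ℝ)
    (heq : (x : ℝ) ^ p + Y = (z : ℝ) ^ r) (hle : Y ≤ (x : ℝ) ^ p) (hY0 : 0 < Y)
    (hY : Y = R ^ B * (1 + T)) (hT : |T| ≤ 3 / 100) : False := by
  have hn0 : (0 : ℝ) < R := by linarith
  have hn0' : (0 : ℝ) < R' := by linarith
  have hi : ∀ (R σ : ℝ), 200 ≤ R → |R * σ| = 1 → ∀ (t e : ℕ) (g : ℤ), 1 ≤ t →
      (e : ℝ) * (|(g : ℝ)| + 1) ≤ R / 1000 → (e : ℝ) * |σ ^ t + g| ≤ R / 100 := by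
    intro R σ hR hσ t e g ht hh
    have h3 : |σ ^ t + g| ≤ |(g : ℝ)| + 1 := by
      have := abs_add_le (σ ^ t) (g : ℝ)
      linarith [(sigma_pow R σ hR hσ t).2 ht]
    have h4 := mul_le_mul_of_nonneg_left h3 (Nat.cast_nonneg e (α := ℝ))
    linarith
  obtain ⟨X, x1, x2⟩ := base_form R (σ ^ a + d) a p hR ha (by omega) (hi R σ hR hσ1 a p d ha hpd)
  obtain ⟨Z, z1, z2⟩ := base_form R' (σ' ^ c + f) c r hR' hc (by omega)
    (hi R' σ' hR' hσ1' c r f hc hrf)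
  have sx := small_dev R σ hR hσ1 a p s d ha hpd h1
  have sz := small_dev R' σ' hR' hσ1' c r s f hc hrf h2
  have hRs : 0 < R ^ s := pow_pos hn0 _
  have hRs' : 0 < R' ^ s := pow_pos hn0' _
  have hprod : ∀ u v : ℕ, (u : ℝ) ≤ L → (v : ℝ) ≤ E → ((u * v : ℕ) : ℝ) ≤ E * L := by
    intro u v hu hv
    push_cast
    calc (u : ℝ) * v ≤ L * E := mul_le_mul hu hv (Nat.cast_nonneg _) (by linarith)
      _ = E * L := mul_comm _ _
  obtain ⟨d1, -⟩ := delta n W E L R R' (a * p) hE hL hbig hR hn hRR (hprod a p haL hpE)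
  obtain ⟨d2, -⟩ := delta n W E L R R' (c * r) hE hL hbig hR hn hRR (hprod c r hcL hrE)
  obtain ⟨δ, hδ⟩ : ∃ δ : ℝ, δ = (R' - R) / R := ⟨_, rfl⟩
  rw [← hδ] at d1 d2
  have hR'δ : R' = R * (1 + δ) := by rw [hδ]; field_simp; ring
  have hμ : (((a * p : ℕ) : ℝ) * δ) * R ^ s = ((a * p : ℕ) : ℝ) * (R' - R) * R ^ (s - 1) := by
    have h3 : R ^ s = R ^ (s - 1) * R := by rw [← pow_succ]; congr 1; omega
    rw [h3, hδ]
    field_simp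
  have hμa : |((a * p : ℕ) : ℝ) * δ| * R ^ s = |((a * p : ℕ) : ℝ) * (R' - R) * R ^ (s - 1)| := by
    rw [← hμ, abs_mul _ (R ^ s), abs_of_pos hRs]
  have hX : |X| ≤ |((a * p : ℕ) : ℝ) * δ| / 100 := by
    have h3 : |X| * R ^ s ≤ |((a * p : ℕ) : ℝ) * δ| / 100 * R ^ s := by
      have h4 := mul_le_mul_of_nonneg_right x2 hRs.le
      rw [div_mul_eq_mul_div, hμa]
      linarith
    exact le_of_mul_le_mul_right h3 hRs
  have hRs2 : R ^ s ≤ 4 * R' ^ s := by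
    calc R ^ s ≤ (2 * R') ^ s := pow_le_pow_left₀ hn0.le hRR2 s
      _ = 2 ^ s * R' ^ s := by rw [mul_pow]
      _ ≤ 2 ^ 2 * R' ^ s :=
          mul_le_mul_of_nonneg_right (pow_le_pow_right₀ (by norm_num) hs2) hRs'.le
      _ = 4 * R' ^ s := by norm_num
  have hZ : |Z| ≤ |((a * p : ℕ) : ℝ) * δ| / 100 := by
    have h3 : |Z| * R ^ s ≤ |((a * p : ℕ) : ℝ) * δ| / 100 * R ^ s := by
      have h4 := mul_le_mul_of_nonneg_right z2 hRs'.le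
      have h5 : |Z| * R ^ s ≤ |Z| * (4 * R' ^ s) := mul_le_mul_of_nonneg_left hRs2 (abs_nonneg _)
      rw [div_mul_eq_mul_div, hμa]
      linarith
    exact le_of_mul_le_mul_right h3 hRs
  have hsD : s ≤ a * p := by
    have : 1 * 2 ≤ a * p := Nat.mul_le_mul ha hp
    omega
  have h1D : 1 ≤ c * r := Nat.mul_pos hc (by omega)
  exact far R R' δ X Z T Y _ _ _ (a * p) (c * r) B s hR hR'δ h1D d1 d2 hsD
    (by rw [hx, x1]) (by rw [hz, z1]) hX hZ hμ hμ1 hμ2 heq hle hY0 hY hT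

theorem V_one (P Q : ℤ) : V P Q 1 = P := rfl

theorem V_two (P Q : ℤ) : V P Q 2 = P * P - Q * 2 := rfl

/-- the index one: the parameter may be moved -/
theorem normP (n W : ℝ) (hW : 1 ≤ W) (P : ℕ) (Q : ℤ) (a x : ℕ) (ha : 1 ≤ a)
    (hP : |(P : ℝ) - n| ≤ W) (hx : |(x : ℝ) - V P Q a| ≤ W) :
    ∃ P' : ℕ, |(P' : ℝ) - n| ≤ 2 * W ∧ |(x : ℝ) - V P' Q a| ≤ W ∧
      (2 ≤ a ∨ ((x : ℤ) - V P' Q a = 0 ∧ 1 ≤ a)) := by
  rcases Nat.lt_or_ge 1 a with h | h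
  · exact ⟨P, by linarith, hx, Or.inl h⟩
  · have h1 : a = 1 := by omega
    subst h1
    rw [V_one] at hx
    push_cast at hx
    refine ⟨x, ?_, ?_, Or.inr ⟨by rw [V_one]; ring, le_rfl⟩⟩
    · have h2 : (x : ℝ) - n = (x - P) + (P - n) := by ring
      rw [h2]
      have := abs_add_le ((x : ℝ) - P) ((P : ℝ) - n)
      linarith
    · rw [V_one]
      push_cast
      rw [sub_self, abs_zero]
      linarith

/-- the indices one and two: `Q` may be changed -/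
theorem switch (W : ℝ) (hW : 1 ≤ W) (P : ℕ) (Q Q' : ℤ) (hQ : Q = 1 ∨ Q = -1)
    (hQ' : Q' = 1 ∨ Q' = -1) (a x : ℕ) (ha : 1 ≤ a) (ha2 : a ≤ 2)
    (hx : |(x : ℝ) - V P Q a| ≤ W) : |(x : ℝ) - V P Q' a| ≤ 5 * W := by
  have h1 : |(V P Q a : ℝ) - V P Q' a| ≤ 4 := by
    rcases (by omega : a = 1 ∨ a = 2) with h | h
    · subst h
      rw [V_one, V_one, sub_self, abs_zero]
      norm_num
    · subst h
      rw [V_two, V_two]
      rcases hQ with h3 | h3 <;> rcases hQ' with h4 | h4 <;> rw [h3, h4] <;> push_cast <;>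
        rw [abs_le] <;> constructor <;> linarith
  have h2 : (x : ℝ) - V P Q' a = (x - V P Q a) + (V P Q a - V P Q' a) := by ring
  rw [h2]
  have := abs_add_le ((x : ℝ) - V P Q a) ((V P Q a : ℝ) - V P Q' a)
  linarith


/-- equal parameters -/
theorem pairEq (n W E L : ℝ) (hW : 1 ≤ W) (hE : 1 ≤ E) (hL : 1 ≤ L)
    (hbig : 60000 * (E * L * W) ≤ n) (P P₂ : ℕ) (Q Q₂ : ℤ) (hQ : Q = 1 ∨ Q = -1)
    (hQ₂ : Q₂ = 1 ∨ Q₂ = -1) (hP : |(P : ℝ) - n| ≤ 2 * W) (hP₂ : |(P₂ : ℝ) - n| ≤ W)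
    (a b c p q r x y z : ℕ) (ha : 1 ≤ a)
    (hb : 1 ≤ b) (hc : 1 ≤ c) (hp : 2 ≤ p) (hq : 2 ≤ q) (hr : 2 ≤ r) (hpE : (p : ℝ) ≤ E)
    (hqE : (q : ℝ) ≤ E) (hrE : (r : ℝ) ≤ E) (hx : |(x : ℝ) - V P Q a| ≤ 5 * W)
    (hy : |(y : ℝ) - V P₂ Q₂ b| ≤ W) (hz : |(z : ℝ) - V P Q c| ≤ 5 * W)
    (hxL : (x : ℝ) ≤ Real.exp L) (hyL : (y : ℝ) ≤ Real.exp L) (hzL : (z : ℝ) ≤ Real.exp L)
    (hco : Nat.Coprime x z) (hx2 : 2 ≤ x) (hz2 : 2 ≤ z) (hy0 : 0 < y)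
    (heq : x ^ p + y ^ q = z ^ r) (hle : y ^ q ≤ x ^ p) : False := by
  have hEL : 1 ≤ E * L := by nlinarith
  have hELW : W ≤ E * L * W := by nlinarith
  have hP1 := (abs_le.mp hP).1
  have hP400 : 400 ≤ (P : ℝ) := by linarith
  obtain ⟨R, σ, r1, r2, r3, r4, r5⟩ := root P Q hQ hP400
  obtain ⟨f1, f2, f3, f4⟩ := facts n W E L R σ hW hE hL hbig P Q r4 r1 hP r2 r3 r5 a x ha hx hxL
  obtain ⟨g1, g2, g3, g4⟩ := facts n W E L R σ hW hE hL hbig P Q r4 r1 hP r2 r3 r5 c z hc hz hzL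
  have hRn : |R - n| ≤ 3 * W := by
    have h1 : R - n = (R - P) + (P - n) := by ring
    rw [h1]
    have := abs_add_le (R - P) ((P : ℝ) - n)
    linarith
  obtain ⟨T, t1, t2⟩ := third n W E L R hW hE hL hbig r1 hRn P₂ Q₂ hQ₂ hP₂ b q y hb hq hqE hy hyL
  have hfp := f2 p hpE
  have hgp := g2 p hpE
  have hgr := g2 r hrE
  refine core' R σ Q r1 r3 r4 a c p r x z (b * q) _ _ ((y : ℝ) ^ q) T ha hc hp hr f1 g1
    (by linarith) (by linarith) (by linarith) hco hx2 hz2 (by exact_mod_cast heq)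
    (by exact_mod_cast hle) (by positivity) t1 t2

/-- **two largest terms** -/
theorem pairV (n W E L : ℝ) (hW : 1 ≤ W) (hE : 1 ≤ E) (hL : 1 ≤ L)
    (hbig : 60000 * (E * L * W) ≤ n) (P₁ P₂ P₃ : ℕ) (Q₁ Q₂ Q₃ : ℤ) (hQ₁ : Q₁ = 1 ∨ Q₁ = -1)
    (hQ₂ : Q₂ = 1 ∨ Q₂ = -1) (hQ₃ : Q₃ = 1 ∨ Q₃ = -1) (hP₁ : |(P₁ : ℝ) - n| ≤ W)
    (hP₂ : |(P₂ : ℝ) - n| ≤ W) (hP₃ : |(P₃ : ℝ) - n| ≤ W) (a b c p q r x y z : ℕ) (ha : 1 ≤ a)
    (hb : 1 ≤ b) (hc : 1 ≤ c) (hp : 2 ≤ p) (hq : 2 ≤ q) (hr : 2 ≤ r) (hpE : (p : ℝ) ≤ E)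
    (hqE : (q : ℝ) ≤ E) (hrE : (r : ℝ) ≤ E) (hx : |(x : ℝ) - V P₁ Q₁ a| ≤ W)
    (hy : |(y : ℝ) - V P₂ Q₂ b| ≤ W) (hz : |(z : ℝ) - V P₃ Q₃ c| ≤ W)
    (hxL : (x : ℝ) ≤ Real.exp L) (hyL : (y : ℝ) ≤ Real.exp L) (hzL : (z : ℝ) ≤ Real.exp L)
    (hco : Nat.Coprime x z) (hx2 : 2 ≤ x) (hz2 : 2 ≤ z) (hy0 : 0 < y)
    (heq : x ^ p + y ^ q = z ^ r) (hle : y ^ q ≤ x ^ p) : False := by
  have hEL : 1 ≤ E * L := by nlinarith
  have hELW : W ≤ E * L * W := by nlinarith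
  obtain ⟨P, hP, hxP, hPa⟩ := normP n W hW P₁ Q₁ a x ha hP₁ hx
  obtain ⟨P', hP', hzP', hPc⟩ := normP n W hW P₃ Q₃ c z hc hP₃ hz
  have hdef : ∀ R : ℝ, 200 ≤ R → |R - P| ≤ 1 / 200 → |R - n| ≤ 3 * W := by
    intro R _ h
    have h1 : R - n = (R - P) + (P - n) := by ring
    rw [h1]
    have := abs_add_le (R - P) ((P : ℝ) - n)
    linarith
  have hapE : ((a * p : ℕ) : ℝ) = (a : ℝ) * p := by push_cast; ring
  by_cases hcase : P = P' ∧ (Q₁ = Q₃ ∨ a ≤ 2 ∨ c ≤ 2)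
  · -- the same sequence
    obtain ⟨h1, h2⟩ := hcase
    subst h1
    rcases h2 with h2 | h2 | h2
    · subst h2
      exact pairEq n W E L hW hE hL hbig P P₂ Q₁ Q₂ hQ₁ hQ₂ hP hP₂ a b c p q r x y z ha hb hc hp hq
        hr hpE hqE hrE (by linarith) hy (by linarith) hxL hyL hzL hco hx2 hz2 hy0 heq hle
    · exact pairEq n W E L hW hE hL hbig P P₂ Q₃ Q₂ hQ₃ hQ₂ hP hP₂ a b c p q r x y z ha hb hc hp hq
        hr hpE hqE hrE (switch W hW P Q₁ Q₃ hQ₁ hQ₃ a x ha h2 hxP) hy (by linarith) hxL hyL hzL hco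
        hx2 hz2 hy0 heq hle
    · exact pairEq n W E L hW hE hL hbig P P₂ Q₁ Q₂ hQ₁ hQ₂ hP hP₂ a b c p q r x y z ha hb hc hp hq
        hr hpE hqE hrE (by linarith) hy (switch W hW P Q₃ Q₁ hQ₃ hQ₁ c z hc h2 hzP') hxL hyL hzL hco
        hx2 hz2 hy0 heq hle
  -- different sequences
  have hPl := (abs_le.mp hP).1
  have hPl' := (abs_le.mp hP').1
  have hP400 : 400 ≤ (P : ℝ) := by linarith
  have hP400' : 400 ≤ (P' : ℝ) := by linarith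
  obtain ⟨R, σ, r1, r2, r3, r4, r5⟩ := root P Q₁ hQ₁ hP400
  obtain ⟨R', σ', r1', r2', r3', r4', r5'⟩ := root P' Q₃ hQ₃ hP400'
  obtain ⟨f1, f2, f3, f4⟩ := facts n W E L R σ hW hE hL hbig P Q₁ r4 r1 hP r2 r3 r5 a x ha
    (by linarith) hxL
  obtain ⟨g1, g2, g3, g4⟩ := facts n W E L R' σ' hW hE hL hbig P' Q₃ r4' r1' hP' r2' r3' r5' c z hc
    (by linarith) hzL
  have hRn := hdef R r1 r2
  obtain ⟨T, t1, t2⟩ := third n W E L R hW hE hL hbig r1 hRn P₂ Q₂ hQ₂ hP₂ b q y hb hq hqE hy hyL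
  have hσ1 : |R * σ| = 1 := by rw [r3]; exact r4
  have hσ1' : |R' * σ'| = 1 := by rw [r3']; exact r4'
  have hPP : |(P' : ℝ) - P| ≤ 4 * W := by
    have h1 : (P' : ℝ) - P = (P' - n) - (P - n) := by ring
    rw [h1]
    have := abs_sub ((P' : ℝ) - n) ((P : ℝ) - n)
    linarith
  have hRR0 : R' - R = (R' - P') + ((P' : ℝ) - P) - (R - P) := by ring
  have hRR1 : |R' - R| ≤ |(P' : ℝ) - P| + 1 / 100 := by
    rw [hRR0]
    have h1 := abs_sub ((R' - P') + ((P' : ℝ) - P)) (R - P)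
    have h2 := abs_add_le (R' - P') ((P' : ℝ) - P)
    linarith
  have hRR : |R' - R| ≤ 5 * W := by linarith
  have hRR2 : R ≤ 2 * R' := by
    have := (abs_le.mp hRR).1
    linarith
  have hapL : ((a * p : ℕ) : ℝ) ≤ E * L := by
    rw [hapE]
    calc (a : ℝ) * p ≤ L * E := mul_le_mul f3 hpE (Nat.cast_nonneg _) (by linarith)
      _ = E * L := mul_comm _ _
  have hap2 : (2 : ℝ) ≤ ((a * p : ℕ) : ℝ) := by
    have : 1 * 2 ≤ a * p := Nat.mul_le_mul ha hp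
    have h2 : 2 ≤ a * p := by omega
    exact_mod_cast h2
  obtain ⟨-, d2⟩ := delta n W E L R R' (a * p) hE hL hbig r1 f4 hRR hapL
  have heqR : (x : ℝ) ^ p + (y : ℝ) ^ q = (z : ℝ) ^ r := by exact_mod_cast heq
  have hleR : (y : ℝ) ^ q ≤ (x : ℝ) ^ p := by exact_mod_cast hle
  by_cases hPP' : P = P'
  · -- `Q₁ ≠ Q₃`, the indices are at least three
    push Not at hcase
    obtain ⟨hQne, ha3, hc3⟩ := hcase hPP'
    subst hPP'
    have hR0 : (0 : ℝ) < R := by linarith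
    have hR0' : (0 : ℝ) < R' := by linarith
    have hQneg : (Q₃ : ℝ) = -Q₁ := by
      rcases hQ₁ with h3 | h3 <;> rcases hQ₃ with h4 | h4
      · exact absurd (h3.trans h4.symm) hQne
      · rw [h3, h4]; norm_num
      · rw [h3, h4]; norm_num
      · exact absurd (h3.trans h4.symm) hQne
    have hs1 : R + σ = P := by
      have h3 := r5 1
      rw [V_one, pow_one, pow_one] at h3
      rw [← h3]; push_cast; rfl
    have hs2 : R' + σ' = P := by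
      have h3 := r5' 1
      rw [V_one, pow_one, pow_one] at h3
      rw [← h3]; push_cast; rfl
    have hmul : (R' - R) * R = Q₁ * (1 + R / R') := by
      have h3 : R' - R = σ - σ' := by linarith
      have h4 : σ' * R = (Q₃ : ℝ) * (R / R') := by
        rw [← r3']; field_simp
      rw [h3, sub_mul, h4, mul_comm σ R, r3, hQneg]
      ring
    have hm : |(R' - R) * R| = 1 + R / R' := by
      rw [hmul, abs_mul, r4, one_mul, abs_of_pos (by positivity)]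
    have hRR3 : R / R' ≤ 2 := by rw [div_le_iff₀ hR0']; exact hRR2
    have hRR4 : 0 ≤ R / R' := by positivity
    have hμ : |((a * p : ℕ) : ℝ) * (R' - R) * R ^ (2 - 1)| = ((a * p : ℕ) : ℝ) * (1 + R / R') := by
      rw [show (2 - 1 : ℕ) = 1 from rfl, pow_one, mul_assoc, abs_mul, Nat.abs_cast, hm]
    refine farV n W E L R σ R' σ' 2 (by norm_num) le_rfl hE hL hbig r1 r1' f4 hσ1 hσ1' hRR hRR2
      a c p r x z (b * q) _ _ ha hc hp hr f1 g1 (f2 p hpE) (g2 r hrE) f3 g3 hpE hrE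
      (Or.inl (by omega)) (Or.inl (by omega)) ?_ ?_ ((y : ℝ) ^ q) T heqR hleR (by positivity) t1 t2
    · rw [hμ]; nlinarith
    · rw [hμ]
      have h3 : ((a * p : ℕ) : ℝ) * (1 + R / R') ≤ (E * L) * 3 :=
        mul_le_mul hapL (by linarith) (by linarith) (by linarith)
      have h4 : E * L ≤ E * L * W := by nlinarith
      linarith
  · -- different parameters
    have hPP1 : 1 ≤ |(P' : ℝ) - P| := by
      have h3 : ((P' : ℤ) - (P : ℤ)) ≠ 0 := by omega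
      have h4 := Int.one_le_abs h3
      have h5 : ((1 : ℤ) : ℝ) ≤ ((|(P' : ℤ) - (P : ℤ)| : ℤ) : ℝ) := by exact_mod_cast h4
      push_cast at h5
      exact h5
    have hlow : 99 / 100 ≤ |R' - R| := by
      have h3 : (P' : ℝ) - P = (R' - R) - (R' - P') + (R - P) := by ring
      have h4 := abs_add_le ((R' - R) - (R' - P')) (R - P)
      have h5 := abs_sub (R' - R) (R' - P')
      rw [← h3] at h4
      linarith
    have hμ : |((a * p : ℕ) : ℝ) * (R' - R) * R ^ (1 - 1)| = ((a * p : ℕ) : ℝ) * |R' - R| := by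
      rw [show (1 - 1 : ℕ) = 0 from rfl, pow_zero, mul_one, abs_mul, Nat.abs_cast]
    refine farV n W E L R σ R' σ' 1 le_rfl (by norm_num) hE hL hbig r1 r1' f4 hσ1 hσ1' hRR hRR2
      a c p r x z (b * q) _ _ ha hc hp hr f1 g1 (f2 p hpE) (g2 r hrE) f3 g3 hpE hrE
      hPa hPc ?_ ?_ ((y : ℝ) ^ q) T heqR hleR (by positivity) t1 t2
    · rw [hμ]
      have : 2 * (99 / 100) ≤ ((a * p : ℕ) : ℝ) * |R' - R| :=
        mul_le_mul hap2 hlow (by norm_num) (by positivity)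
      linarith
    · rw [hμ]; linarith

end Pool.Agent.helper349_fc
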