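import Mathlib
import Pool.Agent.helper349_fc.LucasCore

/-!
# Bases near terms of a Lucas sequence: the core lemma and the sequence
-/

set_option autoImplicit false

namespace Pool.Agent.helper349_fc

open Pool.Agent.helper616_fc (pow_one_add sq_small)

/-- **The core lemma**: `z ^ r - x ^ p = y ^ q` with `y ^ q ≤ x ^ p` is impossible. -/
theorem core (R σ ε : ℝ) (hR : 200 ≤ R) (hσε : R * σ = ε) (hε : |ε| = 1)
    (a b c p q r x y z : ℕ) (d e f : ℤ) (ha : 1 ≤ a) (hb : 1 ≤ b) (hc : 1 ≤ c)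
    (hp : 2 ≤ p) (hq : 2 ≤ q) (hr : 2 ≤ r)
    (hx : (x : ℝ) = R ^ a + (σ ^ a + d)) (hyy : (y : ℝ) = R ^ b + (σ ^ b + e))
    (hz : (z : ℝ) = R ^ c + (σ ^ c + f))
    (hpd : (p : ℝ) * (|(d : ℝ)| + 1) ≤ R / 100) (hpf : (p : ℝ) * (|(f : ℝ)| + 1) ≤ R / 100)
    (hqe : (q : ℝ) * (|(e : ℝ)| + 1) ≤ R / 100) (hrf : (r : ℝ) * (|(f : ℝ)| + 1) ≤ R / 100)
    (hco : Nat.Coprime x z) (hx2 : 2 ≤ x) (hz2 : 2 ≤ z) (heq : x ^ p + y ^ q = z ^ r)
    (hle : y ^ q ≤ x ^ p) (hy : 0 < y) : False := by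
  have hn0 : (0 : ℝ) < R := by linarith
  have hσ1 : |R * σ| = 1 := by rw [hσε]; exact hε
  have hsig : ∀ t : ℕ, 1 ≤ t → |σ ^ t| ≤ 1 := fun t ht =>
    ((sigma_pow R σ hR hσ1 t).2 ht).trans (by norm_num)
  have habs : ∀ (t : ℕ) (g : ℤ) (E : ℕ), 1 ≤ t → (E : ℝ) * (|(g : ℝ)| + 1) ≤ R / 100 →
      (E : ℝ) * |σ ^ t + g| ≤ R / 100 := by
    intro t g E ht h
    refine le_trans (mul_le_mul_of_nonneg_left ?_ (by positivity)) h
    have := abs_add_le (σ ^ t) (g : ℝ)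
    linarith [hsig t ht]
  have hpi := habs a d p ha hpd
  have hpk := habs c f p hc hpf
  have hqj := habs b e q hb hqe
  have hrk := habs c f r hc hrf
  obtain ⟨i, hi⟩ : ∃ i : ℝ, i = σ ^ a + d := ⟨_, rfl⟩
  obtain ⟨j, hj⟩ : ∃ j : ℝ, j = σ ^ b + e := ⟨_, rfl⟩
  obtain ⟨k, hk⟩ : ∃ k : ℝ, k = σ ^ c + f := ⟨_, rfl⟩
  rw [← hi] at hpi hx
  rw [← hk] at hpk hrk hz
  rw [← hj] at hqj hyy
  obtain ⟨x1, x2, x3⟩ := pow_form R a p i hR ha (by omega) hpi
  obtain ⟨y1, y2, y3⟩ := pow_form R b q j hR hb (by omega) hqj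
  obtain ⟨z1, z2, z3⟩ := pow_form R c r k hR hc (by omega) hrk
  obtain ⟨X1, X2⟩ := pow_one_add _ p x1 x2
  obtain ⟨Y1, Y2⟩ := pow_one_add _ q y1 y2
  obtain ⟨Z1, Z2⟩ := pow_one_add _ r z1 z2
  set v := (p : ℝ) * (i / R ^ a) with hv
  set w := (q : ℝ) * (j / R ^ b) with hw
  set u := (r : ℝ) * (k / R ^ c) with hu
  obtain ⟨θ, hθ⟩ : ∃ θ : ℝ, θ = (1 + i / R ^ a) ^ p - 1 - v := ⟨_, rfl⟩
  obtain ⟨θy, hθy⟩ : ∃ θ : ℝ, θ = (1 + j / R ^ b) ^ q - 1 - w := ⟨_, rfl⟩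
  obtain ⟨θz, hθz⟩ : ∃ θ : ℝ, θ = (1 + k / R ^ c) ^ r - 1 - u := ⟨_, rfl⟩
  rw [← hθ] at X1 X2
  rw [← hθy] at Y1 Y2
  rw [← hθz] at Z1 Z2
  have hX : (x : ℝ) ^ p = R ^ (a * p) * (1 + (v + θ)) := by rw [hx, x3, hθ]; ring
  have hY : (y : ℝ) ^ q = R ^ (b * q) * (1 + (w + θy)) := by rw [hyy, y3, hθy]; ring
  have hZ : (z : ℝ) ^ r = R ^ (c * r) * (1 + (u + θz)) := by rw [hz, z3, hθz]; ring
  have hv2 := sq_small v x1
  have hw2 := sq_small w y1
  have hu2 := sq_small u z1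
  have hvb : |v + θ| ≤ 15 / 1000 := by
    have := abs_add_le v θ
    rw [abs_of_nonneg X1] at this
    linarith
  have hwb : |w + θy| ≤ 15 / 1000 := by
    have := abs_add_le w θy
    rw [abs_of_nonneg Y1] at this
    linarith
  have hub : |u + θz| ≤ 15 / 1000 := by
    have := abs_add_le u θz
    rw [abs_of_nonneg Z1] at this
    linarith
  obtain ⟨hv3, hv4⟩ := abs_le.mp hvb
  obtain ⟨hu3, hu4⟩ := abs_le.mp hub
  have heqR : (x : ℝ) ^ p + (y : ℝ) ^ q = (z : ℝ) ^ r := by exact_mod_cast heq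
  have hleR : (y : ℝ) ^ q ≤ (x : ℝ) ^ p := by exact_mod_cast hle
  have hYpos : 0 < (y : ℝ) ^ q := by positivity
  have hD : c * r = a * p := by
    rcases Nat.lt_trichotomy (c * r) (a * p) with h | h | h
    · exfalso
      have h1 : R * R ^ (c * r) ≤ R ^ (a * p) := by
        rw [← pow_succ']
        exact pow_le_pow_right₀ (by linarith) h
      have h2 : 0 < R ^ (c * r) := pow_pos hn0 _
      have h3 : (z : ℝ) ^ r ≤ R ^ (c * r) * (102 / 100) := by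
        rw [hZ]; exact mul_le_mul_of_nonneg_left (by linarith) h2.le
      have h4 : R * R ^ (c * r) * (98 / 100) ≤ (x : ℝ) ^ p := by
        rw [hX]; exact mul_le_mul h1 (by linarith) (by norm_num) (by positivity)
      have h5 : 200 * R ^ (c * r) ≤ R * R ^ (c * r) :=
        mul_le_mul_of_nonneg_right hR h2.le
      linarith
    · exact h
    · exfalso
      have h1 : R * R ^ (a * p) ≤ R ^ (c * r) := by
        rw [← pow_succ']
        exact pow_le_pow_right₀ (by linarith) h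
      have h2 : 0 < R ^ (a * p) := pow_pos hn0 _
      have h3 : (x : ℝ) ^ p ≤ R ^ (a * p) * (102 / 100) := by
        rw [hX]; exact mul_le_mul_of_nonneg_left (by linarith) h2.le
      have h4 : R * R ^ (a * p) * (98 / 100) ≤ (z : ℝ) ^ r := by
        rw [hZ]; exact mul_le_mul h1 (by linarith) (by norm_num) (by positivity)
      have h5 : 200 * R ^ (a * p) ≤ R * R ^ (a * p) :=
        mul_le_mul_of_nonneg_right hR h2.le
      linarith
  have hYabs : |(y : ℝ) ^ q| = R ^ (b * q) * (1 + (w + θy)) := by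
    rw [abs_of_pos hYpos, hY]
  have hYneg : |-((y : ℝ) ^ q)| = R ^ (b * q) * (1 + (w + θy)) := by
    rw [abs_neg, abs_of_pos hYpos, hY]
  have hw5 : |w + θy| ≤ 3 / 100 := by linarith
  have hdiff : (y : ℝ) ^ q = R ^ (a * p) * ((u + θz) - (v + θ)) := by
    have : (y : ℝ) ^ q = (z : ℝ) ^ r - (x : ℝ) ^ p := by linarith
    rw [this, hZ, hX, hD]; ring
  have hdiff' : -(y : ℝ) ^ q = R ^ (a * p) * ((v + θ) - (u + θz)) := by
    rw [hdiff]; ring
  -- a base is not the square of another one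
  have hsq : ∀ s t : ℕ, 2 ≤ s → Nat.Coprime s t → (t : ℝ) = (s : ℝ) ^ 2 → False := by
    intro s t hs hst h
    have h1 : t = s ^ 2 := by exact_mod_cast h
    have h2 : s ∣ Nat.gcd s t := Nat.dvd_gcd dvd_rfl (h1 ▸ dvd_pow_self s (by norm_num))
    rw [hst] at h2
    have := Nat.le_of_dvd one_pos h2
    omega
  have hsquare : ∀ t : ℕ, R ^ (2 * t) + (σ ^ (2 * t) + 2 * ε ^ t) = (R ^ t + (σ ^ t + 0)) ^ 2 := by
    intro t
    rw [← hσε, mul_pow, mul_comm 2 t, pow_mul, pow_mul]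
    ring
  rcases Nat.lt_trichotomy a c with hac | hac | hac
  · -- `a < c`
    refine asym R σ ε a c p r (b * q) (a * p) d f u v θ θz (-(y : ℝ) ^ q) (w + θy) hR hσε hε hac
      ha hp hr rfl hD.symm (by rw [hv, hi]) (by rw [hu, hk]) hpd hrf x1 z1 ⟨X1, X2⟩ ⟨Z1, Z2⟩
      hdiff' hw5 hYneg ?_
    rintro ⟨h1, h2, h3⟩
    refine hsq x z hx2 hco ?_
    rw [hz, hk, hx, hi, h1, h2, h3, hsquare]
    push_cast
    ring
  · -- `a = c`
    subst hac
    have hrp : r = p := Nat.eq_of_mul_eq_mul_left (by omega) hD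
    subst hrp
    have hik : 1 ≤ |k - i| := by
      have h1 : k - i = (z : ℝ) - x := by rw [hz, hx]; ring
      rw [h1]
      have h2 : ((z : ℤ) - (x : ℤ)) ≠ 0 := by
        intro h3
        have h4 : z = x := by
          have : (z : ℤ) = x := by linarith
          exact_mod_cast this
        rw [h4] at heq
        have : 0 < y ^ q := Nat.pow_pos hy
        omega
      have h3 := Int.one_le_abs h2
      have h4 : ((1 : ℤ) : ℝ) ≤ ((|(z : ℤ) - (x : ℤ)| : ℤ) : ℝ) := by exact_mod_cast h3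
      push_cast at h4
      exact h4
    refine eq_case R a r (b * q) i k (w + θy) hR ha hr hpi hpk hik hw5 ?_
    rw [← hz, ← hx, ← hYabs]
    congr 1
    linarith
  · -- `c < a`
    refine asym R σ ε c a r p (b * q) (a * p) f d v u θz θ ((y : ℝ) ^ q) (w + θy) hR hσε hε hac
      hc hr hp hD.symm rfl (by rw [hu, hk]) (by rw [hv, hi]) hrf hpd z1 x1 ⟨Z1, Z2⟩ ⟨X1, X2⟩
      hdiff hw5 hYabs ?_
    rintro ⟨h1, h2, h3⟩
    refine hsq z x hz2 hco.symm ?_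
    rw [hx, hi, hz, hk, h1, h2, h3, hsquare]
    push_cast
    ring

end Pool.Agent.helper349_fc
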